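import Pool.Agent.R228.QG.Tri2

/-!
# An infinite proper hot-spot set

The graph is a triangle with three equal sides of length `a = arccos (-7/25)` with a pendant edge of
length `b = arctan (11/24) < a / 2` at each corner. With the standard vertex conditions the second
eigenvalue is `1`, with a two-dimensional eigenspace. The points of each side at distance at least
`b` from the corners are hot spots, but the inner points of the pendant edges are not.
-/

set_option autoImplicit false

namespace Pool.Agent.Results.MP_c0afcf_an.InfiniteProperHotSet

open Pool.Agent.R228.QG

/-- There is a compact connected metric graph with standard vertex conditions whose hot-spot set is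
infinite but is not the whole graph. -/
theorem result : ∃ (V E : Type) (_ : Fintype V) (_ : Fintype E) (_ : DecidableEq V)
    (Γ : MGraph V E), Γ.Connected ∧ (hotSet Γ (fun _ => 0)).Infinite ∧
      hotSet Γ (fun _ => 0) ≠ Set.univ :=
  ⟨Fin 3 ⊕ Fin 3, Fin 3 ⊕ Fin 3, inferInstance, inferInstance, inferInstance, tri, tri_connected,
    hot_infinite, hot_ne_univ⟩

end Pool.Agent.Results.MP_c0afcf_an.InfiniteProperHotSet
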